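import Pool.Agent.V11118.SurvTwo

/-!
An infinite vertex-transitive graph with survival number two which does not have linear growth.
-/

namespace Pool.Agent.Results.MP_20f07a_co.SurvivalTwoQuadratic

open Pool.Agent.V11118.Survival

theorem result : ∃ G : SimpleGraph (ℤ × ℤ × Bool),
    Nice G ∧ survival G = 2 ∧ ¬ LinearGrowth G :=
  ⟨Pool.Agent.V11118.SurvTwo.Gr, Pool.Agent.V11118.SurvTwo.nice,
    Pool.Agent.V11118.SurvTwo.survival_eq, Pool.Agent.V11118.SurvTwo.not_linearGrowth⟩

end Pool.Agent.Results.MP_20f07a_co.SurvivalTwoQuadratic
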